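import Pool.Agent.helper30.QP.SpecC

/-! Row qp:DSC. -/

set_option autoImplicit false

open Polynomial Pool.Agent.helper7.IG

noncomputable section

namespace Pool.Agent.QP

theorem DSC : DSC_stmt := by
  intro e l ψ he hl h
  have he' : (e : ℤ) ≠ 0 := by exact_mod_cast he
  have hl' : (2 : ℤ) ≤ (l : ℤ) := by exact_mod_cast hl
  have hlle : l * l * e ≠ 0 := by positivity
  have key : ∀ n : ℤ, ψ.coeff n = if ((l : ℤ) * l) ∣ n then ψ.coeff (n / ((l : ℤ) * l)) else 0 := by
    intro n
    have h1 := congrArg (fun F : LL => F.coeff ((e : ℤ) * n)) h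
    rw [sig_coeff_mul he, one_zpow, Units.val_one, one_mul, sig_coeff hlle] at h1
    rw [← h1]
    have e1 : ((l * l * e : ℕ) : ℤ) = (e : ℤ) * ((l : ℤ) * l) := by
      push_cast
      ring
    have e2 : (e : ℤ) * n / ((e : ℤ) * ((l : ℤ) * l)) = n / ((l : ℤ) * l) :=
      Int.mul_ediv_mul_of_pos _ _ (by positivity)
    rw [e1, e2, one_zpow, Units.val_one, one_mul]
    simp only [mul_dvd_mul_iff_left he']
  have zero : ∀ k : ℕ, ∀ n : ℤ, n ≠ 0 → n.natAbs = k → ψ.coeff n = 0 := by
    intro k
    induction k using Nat.strong_induction_on with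
    | _ k ih =>
      intro n hn hk
      rw [key n]
      split_ifs with hd
      · obtain ⟨m, rfl⟩ := hd
        have hll : ((l : ℤ) * l) ≠ 0 := by positivity
        rw [Int.mul_ediv_cancel_left _ hll]
        have hm : m ≠ 0 := by
          rintro rfl
          exact hn (mul_zero _)
        refine ih m.natAbs ?_ m hm rfl
        rw [← hk, Int.natAbs_mul, Int.natAbs_mul, Int.natAbs_natCast]
        have h3 : 0 < m.natAbs := Int.natAbs_pos.2 hm
        have h4 : 2 * 2 ≤ l * l := Nat.mul_le_mul hl hl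
        have h5 : 2 * 2 * m.natAbs ≤ l * l * m.natAbs := Nat.mul_le_mul_right _ h4
        omega
      · rfl
  refine ⟨ψ.coeff 0, ?_⟩
  rw [show algebraMap kk LL (ψ.coeff 0) = HahnSeries.C (ψ.coeff 0) from rfl, HahnSeries.C_apply]
  ext n
  by_cases hn : n = 0
  · rw [hn, HahnSeries.coeff_single_same]
  · rw [HahnSeries.coeff_single_of_ne hn, zero _ n hn rfl]

end Pool.Agent.QP
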