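import Pool.Agent.helper67.QP.SpecE

/-! Row qp:EJC. -/

set_option autoImplicit false

noncomputable section

namespace Pool.Agent.QP

open Pool.Agent.EP (JG ac pp)

theorem EJC : EJC_stmt := by
  intro D m hD h6 hmD
  have hD0 : D ≠ 0 := by
    rintro rfl
    omega
  have hf : D.divisors.filter (fun d : ℕ => (d : ℤ) ∣ (m : ℤ) ^ 2) = {1} := by
    ext d
    rw [Finset.mem_filter, Nat.mem_divisors, Finset.mem_singleton]
    constructor
    · rintro ⟨⟨h1, _⟩, h2⟩
      have h3 : d ∣ m ^ 2 := by exact_mod_cast h2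
      have h4 : Nat.Coprime (m ^ 2) D := Nat.Coprime.pow_left 2 hmD
      exact Nat.eq_one_of_dvd_one (by
        have := Nat.dvd_gcd h3 h1
        rwa [h4.gcd_eq_one] at this)
    · rintro rfl
      exact ⟨⟨one_dvd _, hD0⟩, by simp⟩
  unfold JG
  rw [hf, Finset.sum_singleton]
  have e : (D : ℤ) * (m : ℤ) ^ 2 / ((1 : ℕ) : ℤ) ^ 2 = ((D * m ^ 2 : ℕ) : ℤ) := by
    push_cast
    rw [Int.ediv_one]
  rw [e]
  have hm24 : m ^ 2 % 24 = 1 := by
    have h2 : m % 2 = 1 := by
      have : Nat.Coprime m 2 := Nat.Coprime.coprime_dvd_right (by norm_num) h6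
      rw [Nat.coprime_two_right] at this
      exact Nat.odd_iff.1 this
    have h3 : m % 3 ≠ 0 := by
      intro h
      have : Nat.Coprime m 3 := Nat.Coprime.coprime_dvd_right (by norm_num) h6
      have h4 : 3 ∣ Nat.gcd m 3 := Nat.dvd_gcd (Nat.dvd_of_mod_eq_zero h) (dvd_refl 3)
      rw [this.gcd_eq_one] at h4
      omega
    have h4 : m ^ 2 % 24 = (m % 24) ^ 2 % 24 := by rw [Nat.pow_mod]
    rw [h4]
    have h5 : m % 24 < 24 := Nat.mod_lt _ (by norm_num)
    have h6' : (m % 24) % 2 = 1 := by omega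
    have h7 : (m % 24) % 3 ≠ 0 := by omega
    generalize m % 24 = r at h5 h6' h7
    interval_cases r <;> simp_all
  have hmod : (D * m ^ 2) % 24 = 23 := by
    rw [Nat.mul_mod, hD, hm24]
  unfold ac
  rw [if_pos]
  · congr 1
  · constructor
    · exact_mod_cast hmod
    · have : (0 : ℤ) ≤ ((D * m ^ 2 : ℕ) : ℤ) := Int.natCast_nonneg _
      omega

end Pool.Agent.QP
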