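import Pool.Agent.helper30.QP.SpecC

/-! Row qp:INA. -/

set_option autoImplicit false

open Polynomial Pool.Agent.helper7.IG

noncomputable section

namespace Pool.Agent.QP

theorem INA (hME : ME_stmt) : INA_stmt := by
  rintro F G ⟨hF, N1, hN1, h1⟩ ⟨hG, N2, hN2, h2⟩
  refine ⟨add_mem hF hG, N1 * N2, hN1.mul hN2, fun Φ g v v' hv hv' hd hd' he he' => ?_⟩
  have e : ∀ u : Vx, Odd u.1 → Φ.cl (sig u.1 u.2 (F + G)) =
      Φ.cl (sig u.1 u.2 F) + Φ.cl (sig u.1 u.2 G) := by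
    intro u hu
    rw [map_add, Φ.cl_add _ (hME _ _ _ hu hF) _ (hME _ _ _ hu hG)]
  rw [e v hv, e v' hv', map_add,
    h1 Φ g v v' hv hv' ((dvd_mul_right N1 N2).trans hd) ((dvd_mul_right N1 N2).trans hd') he he',
    h2 Φ g v v' hv hv' ((dvd_mul_left N2 N1).trans hd) ((dvd_mul_left N2 N1).trans hd') he he']

end Pool.Agent.QP
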