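import Pool.Agent.helper30.QP.SpecC

/-! Row qp:LEMC. -/

set_option autoImplicit false

open Polynomial Pool.Agent.helper7.IG

noncomputable section

namespace Pool.Agent.QP

theorem LEMC_one (F : LL) : PN 1 F = F := by
  ext n
  rw [PN_coeff, if_pos]
  simp

theorem LEMC_desc (hONE : ONE_stmt) (F : LL) (hF : Inv3 F) : ∀ N : ℕ, Squarefree N → N.Coprime 6 →
    (∃ c : kk, PN N F = algebraMap kk LL c) → ∃ c : kk, F = algebraMap kk LL c := by
  intro N
  induction N using Nat.strong_induction_on with
  | _ N ih =>
    intro hsq h6 hc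
    by_cases h1 : N = 1
    · rw [h1, LEMC_one] at hc
      exact hc
    · have hN0 : N ≠ 0 := hsq.ne_zero
      have hl : (N.minFac).Prime := Nat.minFac_prime h1
      obtain ⟨N', hN'⟩ := Nat.minFac_dvd N
      set l := N.minFac with hldef
      have hl2 : l ≠ 2 := by
        intro h
        have h3 : l.Coprime 6 := Nat.Coprime.coprime_dvd_left (Nat.minFac_dvd N) h6
        rw [h] at h3
        exact absurd h3 (by decide)
      have hl3 : l ≠ 3 := by
        intro h
        have h3 : l.Coprime 6 := Nat.Coprime.coprime_dvd_left (Nat.minFac_dvd N) h6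
        rw [h] at h3
        exact absurd h3 (by decide)
      rw [hN'] at hsq h6 hc
      have hcop : Nat.Coprime l N' := Nat.coprime_of_squarefree_mul hsq
      have hN'sq : Squarefree N' := hsq.of_mul_right
      have hN'6 : N'.Coprime 6 := Nat.Coprime.coprime_dvd_left (dvd_mul_left N' l) h6
      have hN'0 : N' ≠ 0 := hN'sq.ne_zero
      have hodd : Odd N' := by
        rw [← Nat.coprime_two_right]
        exact Nat.Coprime.coprime_dvd_right (by norm_num) hN'6
      obtain ⟨c, hc⟩ := hc
      have hc0 : c = 0 := by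
        have h0 := congrArg (fun G : LL => G.coeff 0) hc
        rw [PN_coeff, if_neg, show algebraMap kk LL c = HahnSeries.C c from rfl, HahnSeries.C_apply,
          HahnSeries.coeff_single_same] at h0
        · exact h0.symm
        · rw [← hN', Int.gcd_zero_left, Int.natAbs_natCast]
          exact h1
      rw [hc0, map_zero] at hc
      refine ih N' ?_ hN'sq hN'6 (hONE F N' l hF hodd hN'sq hl hl2 hl3 hcop.symm hc)
      conv_rhs => rw [hN']
      have := hl.two_le
      nlinarith [Nat.pos_of_ne_zero hN'0]

theorem LEMC (hPMM : PMM_stmt) (hRAT : RAT_stmt) (hONE : ONE_stmt) : LEMC_stmt := by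
  rintro F N hF hsq h6 ⟨P, Q, hP, hPQ⟩
  have hodd : Odd N := by
    rw [← Nat.coprime_two_right]
    exact Nat.Coprime.coprime_dvd_right (by norm_num) h6
  exact LEMC_desc hONE F hF N hsq h6 (hRAT (PN N F) P Q (hPMM N F hodd hsq hF.1) hP hPQ)

end Pool.Agent.QP
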