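import Pool.Agent.helper30.QP.SpecC

/-! Row qp:PMM. -/

set_option autoImplicit false

open Polynomial Pool.Agent.helper7.IG

noncomputable section

namespace Pool.Agent.QP

theorem PMM (hPNS : PNS_stmt) (hME : ME_stmt) : PMM_stmt := by
  intro N F hN hsq hF
  obtain ⟨Ξ, _, h⟩ := hPNS N hN hsq
  rw [h F]
  exact sum_mem fun ξ _ => hME 1 ξ F odd_one hF

end Pool.Agent.QP
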