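import Pool.Agent.helper30.QP.SpecC

/-! Row qp:PNA. -/

set_option autoImplicit false

open Polynomial Pool.Agent.helper7.IG

noncomputable section

namespace Pool.Agent.QP

theorem PNA_geo (l : ℕ) (hl : l.Prime) (hl2 : l ≠ 2) (ω : kkˣ) (hω : IsPrimitiveRoot ω l) (n : ℤ) :
    ∑ j ∈ Finset.range l, (((ω ^ j) ^ n : kkˣ) : kk) = if (l : ℤ) ∣ n then 1 else 0 := by
  have e : ∀ j : ℕ, (((ω ^ j) ^ n : kkˣ) : kk) = ((ω ^ n : kkˣ) : kk) ^ j := by
    intro j
    rw [← Units.val_pow_eq_pow_val, ← zpow_natCast (ω ^ n) j, ← zpow_mul, ← zpow_natCast ω j, ← zpow_mul,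
      mul_comm]
  simp_rw [e]
  split_ifs with h
  · have h1 : ω ^ n = 1 := (hω.zpow_eq_one_iff_dvd n).2 h
    rw [h1, Units.val_one]
    simp only [one_pow, Finset.sum_const, Finset.card_range, nsmul_eq_mul, mul_one]
    have hodd : Odd l := hl.odd_of_ne_two hl2
    obtain ⟨k, hk⟩ := hodd
    rw [hk]
    push_cast
    rw [show (2 : kk) = 0 from CharTwo.two_eq_zero, zero_mul, zero_add]
  · have h1 : ((ω ^ n : kkˣ) : kk) ≠ 1 := by
      intro h2
      apply h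
      rw [← hω.zpow_eq_one_iff_dvd n]
      ext
      rw [h2, Units.val_one]
    have h3 : ((ω ^ n : kkˣ) : kk) ^ l = 1 := by
      rw [← Units.val_pow_eq_pow_val, ← zpow_natCast (ω ^ n) l, ← zpow_mul, mul_comm, zpow_mul, zpow_natCast,
        hω.pow_eq_one, one_zpow, Units.val_one]
    have h4 := geom_sum_mul ((ω ^ n : kkˣ) : kk) l
    rw [h3, sub_self] at h4
    rcases mul_eq_zero.1 h4 with h5 | h5
    · exact h5
    · exact absurd (sub_eq_zero.1 h5) h1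

theorem PNA : PNA_stmt := by
  intro N l F ω hl hl2 hω
  ext n
  rw [HahnSeries.coeff_add, HahnSeries.coeff_sum]
  have e : ∀ j ∈ Finset.range l, (sig 1 (ω ^ j) (PN N F)).coeff n =
      (((ω ^ j) ^ n : kkˣ) : kk) * (PN N F).coeff n := by
    intro j _
    have := sig_coeff_mul one_ne_zero (ω ^ j) (PN N F) n
    rwa [Nat.cast_one, one_mul] at this
  rw [Finset.sum_congr rfl e, ← Finset.sum_mul, PNA_geo l hl hl2 ω hω n, PN_coeff, PN_coeff]
  have hg : Int.gcd n ((l * N : ℕ) : ℤ) = 1 ↔ ¬ (l : ℤ) ∣ n ∧ Int.gcd n (N : ℤ) = 1 := by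
    rw [Int.gcd_eq_natAbs, Int.gcd_eq_natAbs, Int.natAbs_natCast, Int.natAbs_natCast,
      Int.natCast_dvd]
    rw [← Nat.coprime_iff_gcd_eq_one, ← Nat.coprime_iff_gcd_eq_one, Nat.coprime_mul_iff_right,
      Nat.coprime_comm, hl.coprime_iff_not_dvd]
  by_cases h1 : (l : ℤ) ∣ n
  · rw [if_neg (fun h => (hg.1 h).1 h1), if_pos h1, one_mul, CharTwo.add_self_eq_zero]
  · rw [if_neg h1, zero_mul, add_zero]
    by_cases h2 : Int.gcd n (N : ℤ) = 1
    · rw [if_pos (hg.2 ⟨h1, h2⟩), if_pos h2]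
    · rw [if_neg (fun h => h2 (hg.1 h).2), if_neg h2]

end Pool.Agent.QP
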