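import Pool.Agent.helper30.QP.SpecC

/-! Row qp:RAT. -/

set_option autoImplicit false

open Polynomial Pool.Agent.helper7.IG

noncomputable section

namespace Pool.Agent.QP

theorem RAT_incl_C (c : kk) : incl (C c) = algebraMap kk LL c := by
  simp only [incl, RingHom.comp_apply, Polynomial.coeToPowerSeries.ringHom_apply, Polynomial.coe_C,
    HahnSeries.ofPowerSeries_C]
  rfl

theorem RAT_incl_X : incl (X : Polynomial kk) = xx := by
  simp only [incl, RingHom.comp_apply, Polynomial.coeToPowerSeries.ringHom_apply, Polynomial.coe_X,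
    HahnSeries.ofPowerSeries_X]
  rfl

theorem RAT_incl_sum (P : Polynomial kk) (n : ℕ) (h : P.natDegree < n) :
    incl P = ∑ k ∈ Finset.range n, xx ^ k * algebraMap kk LL (P.coeff k) := by
  conv_lhs => rw [P.as_sum_range' n h]
  rw [map_sum]
  refine Finset.sum_congr rfl fun k _ => ?_
  rw [← C_mul_X_pow_eq_monomial, map_mul, map_pow, RAT_incl_C, RAT_incl_X, mul_comm]

theorem RAT (hIND : IND_stmt) : RAT_stmt := by
  intro G P Q hG hP hPQ
  set n : ℕ := max P.natDegree Q.natDegree + 1 with hn
  have hPn : P.natDegree < n := by omega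
  have hQn : Q.natDegree < n := by omega
  have hb : ∀ k : ℕ, algebraMap kk LL (P.coeff k) * G - algebraMap kk LL (Q.coeff k) ∈ MM :=
    fun k => sub_mem (mul_mem (MM.algebraMap_mem _) hG) (MM.algebraMap_mem _)
  have hs : (∑ k ∈ Finset.range n, xx ^ k *
      (algebraMap kk LL (P.coeff k) * G - algebraMap kk LL (Q.coeff k))) = 0 := by
    have e : incl P * G - incl Q = ∑ k ∈ Finset.range n, xx ^ k *
        (algebraMap kk LL (P.coeff k) * G - algebraMap kk LL (Q.coeff k)) := by
      rw [RAT_incl_sum P n hPn, RAT_incl_sum Q n hQn, Finset.sum_mul, ← Finset.sum_sub_distrib]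
      refine Finset.sum_congr rfl fun k _ => ?_
      ring
    rw [← e, hPQ, sub_self]
  have h0 := hIND n (fun k => algebraMap kk LL (P.coeff k) * G - algebraMap kk LL (Q.coeff k)) hb hs
  have hlc : P.coeff P.natDegree ≠ 0 := by
    rw [Polynomial.coeff_natDegree]
    exact Polynomial.leadingCoeff_ne_zero.2 hP
  have h1 := h0 P.natDegree hPn
  have h2 : algebraMap kk LL (P.coeff P.natDegree) * G = algebraMap kk LL (Q.coeff P.natDegree) :=
    sub_eq_zero.1 h1
  refine ⟨(P.coeff P.natDegree)⁻¹ * Q.coeff P.natDegree, ?_⟩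
  rw [map_mul, ← h2, ← mul_assoc, ← map_mul, inv_mul_cancel₀ hlc, map_one, one_mul]

end Pool.Agent.QP
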