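import Pool.Agent.helper30.QP.SpecC

/-! Row qp:UNI. -/

set_option autoImplicit false

open Polynomial Pool.Agent.helper7.IG

noncomputable section

namespace Pool.Agent.QP

theorem UNI_pow (l p : ℕ) (h : l.Coprime p) (x y : kkˣ) (h1 : x ^ p = y ^ p) (h2 : x ^ l = y ^ l) : x = y := by
  have h3 : (x * y⁻¹) ^ p = 1 := by rw [mul_pow, h1, ← mul_pow, mul_inv_cancel, one_pow]
  have h4 : (x * y⁻¹) ^ l = 1 := by rw [mul_pow, h2, ← mul_pow, mul_inv_cancel, one_pow]
  have h5 : orderOf (x * y⁻¹) ∣ Nat.gcd l p := Nat.dvd_gcd (orderOf_dvd_of_pow_eq_one h4) (orderOf_dvd_of_pow_eq_one h3)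
  rw [h.gcd_eq_one, Nat.dvd_one, orderOf_eq_one_iff] at h5
  exact mul_inv_eq_one.1 h5

theorem UNI_sq (l p a b : ℕ) (hl : l.Prime) (hp : p.Prime) (hlp : l ≠ p) (hb : b ≠ 0)
    (h1 : a = p * (p * b)) (h2 : a = l * (l * b)) : False := by
  have h3 : p * p = l * l := by
    have : (p * p) * b = (l * l) * b := by
      rw [mul_assoc, mul_assoc, ← h1, ← h2]
    exact Nat.eq_of_mul_eq_mul_right (Nat.pos_of_ne_zero hb) this
  exact hlp (Nat.mul_self_inj.1 h3).symm

theorem UNI_lt (p a : ℕ) (hp : p.Prime) (ha : a ≠ 0) (h : a = p * (p * a)) : False := by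
  have := hp.two_le
  have h1 : 0 < a := Nat.pos_of_ne_zero ha
  have h2 : 2 * a ≤ p * a := Nat.mul_le_mul_right a this
  have h3 : 1 * (p * a) ≤ p * (p * a) := Nat.mul_le_mul_right _ hp.one_le
  omega

theorem UNI_lt2 (l p a b : ℕ) (hl : l.Prime) (hp : p.Prime) (ha : a ≠ 0) (h : a = p * (p * b)) (h' : b = l * (l * a)) :
    False := by
  have h1 : 0 < a := Nat.pos_of_ne_zero ha
  have e1 := hp.two_le
  have e2 := hl.two_le
  have h2 : 2 * a ≤ l * a := Nat.mul_le_mul_right a e2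
  have h3 : 1 * (l * a) ≤ l * (l * a) := Nat.mul_le_mul_right _ hl.one_le
  have h4 : 1 * b ≤ p * b := Nat.mul_le_mul_right b hp.one_le
  have h5 : 1 * (p * b) ≤ p * (p * b) := Nat.mul_le_mul_right _ hp.one_le
  omega

theorem UNI : UNI_stmt := by
  intro l p y w z z' hl hp hlp hy hw h1 h2 h3 h4
  have hcop : l.Coprime p := (Nat.coprime_primes hl hp).2 hlp
  rcases h1 with ⟨a1, a2⟩ | ⟨a1, a2⟩ <;> rcases h3 with ⟨b1, b2⟩ | ⟨b1, b2⟩
  · exact Prod.ext (a1.trans b1.symm) (a2.trans b2.symm)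
  · rcases h2 with ⟨c1, c2⟩ | ⟨c1, c2⟩ <;> rcases h4 with ⟨d1, d2⟩ | ⟨d1, d2⟩
    · exact Prod.ext (c1.trans d1.symm) (c2.trans d2.symm)
    · exfalso
      have hz' : z'.1 ≠ 0 := by
        intro h
        rw [h, mul_zero] at b1
        exact hy b1
      exact UNI_sq l p z.1 z'.1 hl hp hlp hz' (by rw [a1, b1]) (by rw [c1, d1])
    · exfalso
      have hz : z.1 ≠ 0 := by
        intro h
        rw [h, mul_zero] at c1
        exact hw c1
      exact UNI_lt2 l p z.1 z'.1 hl hp hz (by rw [a1, b1]) (by rw [d1, c1])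
    · exfalso
      have hz : z.1 ≠ 0 := by
        intro h
        rw [h, mul_zero] at c1
        exact hw c1
      have e : z.1 = z'.1 := Nat.eq_of_mul_eq_mul_left hl.pos (c1.symm.trans d1)
      exact UNI_lt p z.1 hp hz (by conv_lhs => rw [a1, b1, ← e])
  · rcases h2 with ⟨c1, c2⟩ | ⟨c1, c2⟩ <;> rcases h4 with ⟨d1, d2⟩ | ⟨d1, d2⟩
    · exact Prod.ext (c1.trans d1.symm) (c2.trans d2.symm)
    · exfalso
      have hz' : z'.1 ≠ 0 := by
        intro h
        rw [h, mul_zero] at d1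
        exact hw d1
      exact UNI_lt2 l p z'.1 z.1 hl hp hz' (by rw [b1, a1]) (by rw [c1, d1])
    · exfalso
      have hz : z.1 ≠ 0 := by
        intro h
        rw [h, mul_zero] at a1
        exact hy a1
      exact UNI_sq l p z'.1 z.1 hl hp hlp hz (by rw [b1, a1]) (by rw [d1, c1])
    · exfalso
      have hz : z.1 ≠ 0 := by
        intro h
        rw [h, mul_zero] at c1
        exact hw c1
      have e : z.1 = z'.1 := Nat.eq_of_mul_eq_mul_left hl.pos (c1.symm.trans d1)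
      exact UNI_lt p z.1 hp hz (by conv_lhs => rw [e, b1, a1])
  · have e : z.1 = z'.1 := Nat.eq_of_mul_eq_mul_left hp.pos (a1.symm.trans b1)
    rcases h2 with ⟨c1, c2⟩ | ⟨c1, c2⟩ <;> rcases h4 with ⟨d1, d2⟩ | ⟨d1, d2⟩
    · exact Prod.ext (c1.trans d1.symm) (c2.trans d2.symm)
    · exfalso
      have hz : z.1 ≠ 0 := by
        intro h
        rw [h, mul_zero] at a1
        exact hy a1
      exact UNI_lt l z.1 hl hz (by conv_lhs => rw [c1, d1, ← e])
    · exfalso
      have hz : z.1 ≠ 0 := by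
        intro h
        rw [h, mul_zero] at a1
        exact hy a1
      exact UNI_lt l z.1 hl hz (by conv_lhs => rw [e, d1, c1])
    · exact Prod.ext e (UNI_pow l p hcop _ _ (a2.trans b2.symm) (c2.trans d2.symm))

end Pool.Agent.QP
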