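import Pool.Agent.helper30.QP.SpecC

/-! Row qp:UR3. -/

set_option autoImplicit false

open Polynomial Pool.Agent.helper7.IG

noncomputable section

namespace Pool.Agent.QP

theorem UR3 (hDVM : DVM_stmt) (hME : ME_stmt) : UR3_stmt := by
  rintro hs ⟨hy, hz⟩
  have hDm : DDk ∈ MM := by
    rw [mem_MM]
    exact isAlgebraic_algebraMap (⟨DDk, IntermediateField.mem_adjoin_simple_self kk DDk⟩ :
      IntermediateField.adjoin kk {DDk})
  have hzm : sig 3 1 DDk ∈ MM := hME 3 1 DDk (by decide) hDm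
  have hy0 : DDk ≠ 0 := th_ne_zero 1 1
  have h2 : (2 : LL) = 0 := CharTwo.two_eq_zero
  have hs0 : DDk + sig 3 1 DDk ≠ 0 := by
    rw [← hs]
    intro h
    apply hy0
    rw [hy]
    have e : UU * (UU + 1) ^ 3 = (UU ^ 2 + UU) * (UU + 1) ^ 2 := by ring
    rw [e, h, zero_mul]
  have hU : UU = sig 3 1 DDk / (DDk + sig 3 1 DDk) + (DDk + sig 3 1 DDk) := by
    have e : sig 3 1 DDk + (DDk + sig 3 1 DDk) ^ 2 = UU * (DDk + sig 3 1 DDk) := by
      rw [← hs, hz]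
      linear_combination (UU ^ 3 * (UU + 1)) * h2
    rw [div_add' _ _ _ hs0, eq_div_iff hs0, ← e]
    ring
  have hUm : UU ∈ MM := by
    rw [hU]
    exact add_mem (div_mem hzm (add_mem hDm hzm)) (add_mem hDm hzm)
  refine ⟨hUm, 1, odd_one, fun Φ g v v' hv hv' _ _ h1 h3 => ?_⟩
  have key : ∀ u : Vx, Odd u.1 → Φ.cl (sig u.1 u.2 UU) =
      Φ.D (up 3 u) / (Φ.D u + Φ.D (up 3 u)) + (Φ.D u + Φ.D (up 3 u)) := by
    intro u hu
    have hu0 : u.1 ≠ 0 := by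
      intro h
      rw [h] at hu
      exact absurd hu (by decide)
    have e1 : sig u.1 u.2 (sig 3 1 DDk) = sig (3 * u.1) (u.2 ^ 3) DDk := by
      rw [sig_sig hu0 (by norm_num : (3 : ℕ) ≠ 0), one_mul, mul_comm]
    have m1 : sig u.1 u.2 DDk ∈ MM := hME _ _ _ hu hDm
    have m2 : sig (3 * u.1) (u.2 ^ 3) DDk ∈ MM := hME _ _ _ ((by decide : Odd 3).mul hu) hDm
    have m3 := add_mem m1 m2
    have e2 : sig u.1 u.2 UU = sig (3 * u.1) (u.2 ^ 3) DDk / (sig u.1 u.2 DDk + sig (3 * u.1) (u.2 ^ 3) DDk) +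
        (sig u.1 u.2 DDk + sig (3 * u.1) (u.2 ^ 3) DDk) := by
      conv_lhs => rw [hU]
      rw [map_add, map_div₀, map_add, e1]
    rw [e2, Φ.cl_add _ (hDVM Φ _ _ m2 m3).1 _ m3, (hDVM Φ _ _ m2 m3).2, Φ.cl_add _ m1 _ m2]
    rfl
  rw [key v hv, key v' hv', map_add, map_div₀, map_add, h1, h3]

end Pool.Agent.QP
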