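import Pool.Agent.helper67.QP.SpecE

/-! Row qp:EPR. -/

set_option autoImplicit false

noncomputable section

namespace Pool.Agent.QP

open Polynomial
open Pool.Agent.helper7.IG (kk LL ps incl ps_coeff)

theorem EPR_incl (Q : Polynomial kk) (n : ℤ) : (incl Q).coeff n = if 0 ≤ n then Q.coeff n.toNat else 0 := by
  have h : incl Q = ps (fun n => Q.coeff n) := by
    unfold incl ps
    rw [RingHom.comp_apply, Polynomial.coeToPowerSeries.ringHom_apply]
    congr 1
  rw [h, ps_coeff]

theorem EPR_one (L : ℕ) : incl (1 + X ^ L : Polynomial kk) = 1 + HahnSeries.single (L : ℤ) (1 : kk) := by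
  rw [map_add, map_one, map_pow]
  congr 1
  have hX : incl (X : Polynomial kk) = HahnSeries.single (1 : ℤ) (1 : kk) := by
    unfold incl
    rw [RingHom.comp_apply, Polynomial.coeToPowerSeries.ringHom_apply, Polynomial.coe_X]
    exact HahnSeries.ofPowerSeries_X
  rw [hX, HahnSeries.single_pow, one_pow, nsmul_eq_mul, mul_one]

theorem EPR : EPR_stmt := by
  intro H L hL h0 hper
  refine ⟨1 + X ^ L, ∑ n ∈ Finset.Icc 1 L, C (H.coeff n) * X ^ n, ?_, ?_⟩
  · intro h
    have h1 := congrArg (fun P : Polynomial kk => P.coeff 0) h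
    simp only [coeff_add, coeff_one_zero, coeff_X_pow, coeff_zero] at h1
    rw [if_neg (by omega), add_zero] at h1
    exact one_ne_zero h1
  · ext n
    rw [EPR_one, add_mul, one_mul, HahnSeries.coeff_add, HahnSeries.coeff_single_mul, one_mul, EPR_incl]
    have hQ : ∀ k : ℕ, (∑ n ∈ Finset.Icc 1 L, C (H.coeff n) * X ^ n : Polynomial kk).coeff k =
        if k ∈ Finset.Icc 1 L then H.coeff k else 0 := by
      intro k
      rw [Polynomial.finset_sum_coeff]
      simp only [coeff_C_mul, coeff_X_pow, mul_ite, mul_one, mul_zero]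
      rw [Finset.sum_ite_eq]
    by_cases hn : 0 ≤ n
    · rw [if_pos hn, hQ]
      have hnn : ((n.toNat : ℕ) : ℤ) = n := Int.toNat_of_nonneg hn
      by_cases h1 : n = 0
      · rw [if_neg (by rw [Finset.mem_Icc]; omega), h0 n (by omega), h0 _ (by omega), add_zero]
      · by_cases h2 : n ≤ L
        · rw [if_pos (by rw [Finset.mem_Icc]; omega), hnn, h0 (n - L) (by omega), add_zero]
        · rw [if_neg (by rw [Finset.mem_Icc]; omega)]
          have h3 := hper (n - L) (by omega)
          rw [sub_add_cancel] at h3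
          rw [h3, CharTwo.add_self_eq_zero]
    · rw [if_neg hn, h0 n (by omega), h0 _ (by omega), add_zero]

end Pool.Agent.QP
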